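import Pool.Agent.H48.ER.Targets

/-! Board `er_modules`, row SB2. -/

set_option autoImplicit false

open Pool.Agent.H48.ER

namespace Pool.Agent.H40.ER

theorem pf_SB2 (hDEG : T_DEG) (hPF : T_PF) : T_SB2 := by
  intro V G a b n P c J D Q D' Q' t hS hQ' hD'
  obtain ⟨a', b', n', P', c', J', hpc'⟩ := hS.pc'
  obtain ⟨-, -, -, -, -, -, -, -, -, hnb, hex, -, -, hdeg⟩ := hPF V G a' b' n' P' c' J' D' Q' hpc'
  have hpr := hS.pc.pr.1
  obtain ⟨-, -, hD3⟩ := hDEG V G a b n P hpr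
  have htQ := hS.tQ
  rw [hS.pc.hQ] at htQ
  rcases htQ with ⟨i, hi, rfl⟩ | ⟨i0, hi0, rfl⟩
  · exact ⟨i, hi, rfl⟩
  exfalso
  -- the elements of `D'` are corners `b m`
  obtain ⟨h, hh, hadj⟩ := hex _ hS.tQ'
  obtain ⟨m, hm⟩ := hD' hh
  have hna : ∀ j, h ≠ a j := by
    intro j e
    refine Set.disjoint_left.1 hS.dis hh ?_
    by_cases hj : j ∈ J
    · left
      rw [hS.pc.hD]
      exact ⟨j, hj, e⟩
    · right
      rw [hS.pc.hQ]
      exact Or.inr ⟨j, hj, e⟩
  have hb : h = b m := by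
    by_contra hb
    obtain ⟨u, -, w, -, -, -, huw⟩ := hD3 m h hm (hna m) hb
    obtain ⟨x, y, z, hxy, hxz, hyz, hw⟩ := hdeg h hh
    have hv : ∀ v, G.Adj h v → v ∈ ver P := by
      intro v hv
      rcases hnb h hh v hv with h1 | h1
      · exact hD' h1
      · exact hQ' h1
    have ax : G.Adj h x := (hw x).2 (Or.inl rfl)
    have ay : G.Adj h y := (hw y).2 (Or.inr (Or.inl rfl))
    have az : G.Adj h z := (hw z).2 (Or.inr (Or.inr rfl))
    have bx := (huw x (hv x ax)).1 ax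
    have by' := (huw y (hv y ay)).1 ay
    have bz := (huw z (hv z az)).1 az
    rcases bx with bx | bx <;> rcases by' with by' | by' <;> rcases bz with bz | bz
    · exact hxy (bx.trans by'.symm)
    · exact hxy (bx.trans by'.symm)
    · exact hxz (bx.trans bz.symm)
    · exact hyz (by'.trans bz.symm)
    · exact hyz (by'.trans bz.symm)
    · exact hxz (bx.trans bz.symm)
    · exact hxy (bx.trans by'.symm)
    · exact hxy (bx.trans by'.symm)
  rw [hb] at hadj
  by_cases e : i0 = m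
  · subst e
    have h1 : n i0 = 1 := (hpr.ip i0).adj_iff.1 hadj.symm
    have h2 := hS.pc.pr.2 i0
    rw [h1] at h2
    exact absurd h2 (by decide)
  · rcases (hpr.adj i0 m e _ (hpr.a_mem i0) _ (hpr.b_mem m)).1 hadj.symm with h1 | h1
    · exact hpr.a_ne_b m m h1.2.symm
    · exact hpr.a_ne_b i0 i0 h1.1

end Pool.Agent.H40.ER
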